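import Mathlib

set_option autoImplicit false

namespace Pool.Agent.Results.MP_0f2923_nt.Exists

open MeasureTheory in
theorem result : ∃ E : Set ℝ, E ⊆ Set.Ioi 0 ∧ (∀ x : ℝ, ∃ a ∈ E, ∃ b ∈ E, x = a - b) ∧
    volume {x : ℝ | ∃ a ∈ E, ∃ b ∈ E, x = 2 * a - b} = 0 := by
  let A : List ℤ := [8, 9, 11, 12, 14, 19, 26, 27, 28]
  have A1 : ∀ a ∈ A, 8 ≤ a ∧ a ≤ 28 := by decide
  have A1' : ∀ a ∈ A, (8 : ℝ) ≤ a ∧ (a : ℝ) ≤ 28 := fun a ha => by exact_mod_cast A1 a ha
  have A2 : ∀ d ∈ Finset.Icc (-21 : ℤ) 21, d ≠ 21 → d ≠ -21 → ∃ a ∈ A, ∃ b ∈ A, a - b = d := by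
    decide +kernel
  have A3 : ∀ a ∈ A, ∀ b ∈ A, (2 * a - b) % 41 < 21 ∨ 23 < (2 * a - b) % 41 := by decide +kernel
  refine ⟨{x | ∃ (n : ℕ) (t : ℕ → ℝ), t 0 = x - n ∧
    ∀ k, |t k| ≤ 2 ∧ ∃ a ∈ A, 41 * t k - t (k + 1) = a}, ?_, fun x => ?_, ?_⟩
  · rintro x ⟨n, t, h0, h⟩
    obtain ⟨a, ha, e⟩ := (h 0).2
    have := abs_le.1 (h 1).1
    have := A1' a ha
    have : (0 : ℝ) ≤ n := n.cast_nonneg
    simp only [Set.mem_Ioi]
    linarith
  · have step : ∀ y : ℝ, |y| ≤ 1 / 2 → ∃ y' : ℝ, |y'| ≤ 1 / 2 ∧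
        ∃ a ∈ A, ∃ b ∈ A, 41 * y - y' = a - b := by
      intro y hy
      obtain ⟨d, h1, h2, h3⟩ : ∃ d : ℤ, -21 < d ∧ d < 21 ∧ |41 * y - d| ≤ 1 / 2 := by
        have r := abs_sub_round (41 * y)
        have r' := abs_le.1 r
        have hy' := abs_le.1 hy
        by_cases h : round (41 * y) < 21
        · by_cases h' : -21 < round (41 * y)
          · exact ⟨_, h', h, r⟩
          · have : (round (41 * y) : ℝ) ≤ -21 := by exact_mod_cast not_lt.1 h'
            exact ⟨-20, by norm_num, by norm_num, abs_le.2 ⟨by push_cast; linarith, by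
              push_cast; linarith⟩⟩
        · have : (21 : ℝ) ≤ round (41 * y) := by exact_mod_cast not_lt.1 h
          exact ⟨20, by norm_num, by norm_num, abs_le.2 ⟨by push_cast; linarith, by
            push_cast; linarith⟩⟩
      obtain ⟨a, ha, b, hb, e⟩ := A2 d (Finset.mem_Icc.2 ⟨h1.le, h2.le⟩) h2.ne h1.ne'
      exact ⟨_, h3, a, ha, b, hb, by rw [← e]; push_cast; ring⟩
    choose! f hf a ha b hb e using step
    let y : ℕ → ℝ := fun k => f^[k] (x - round x)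
    have y1 : ∀ k, y (k + 1) = f (y k) := fun k => Function.iterate_succ_apply' _ _ _
    have y0 : ∀ k, |y k| ≤ 1 / 2 := fun k => by
      induction k with
      | zero => exact abs_sub_round x
      | succ k ih => exact y1 k ▸ hf _ ih
    have g := hasSum_geometric_of_lt_one (r := 1 / 41) (by norm_num) (by norm_num)
    have p : ∀ k j, 0 ≤ (a (y (j + k)) : ℝ) / 41 * (1 / 41) ^ j ∧
        (a (y (j + k)) : ℝ) / 41 * (1 / 41) ^ j ≤ (1 / 41) ^ j := fun k j => by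
      have := A1' _ (ha _ (y0 (j + k)))
      exact ⟨mul_nonneg (by linarith) (by positivity),
        mul_le_of_le_one_left (by positivity) (by linarith)⟩
    have sm : ∀ k, Summable fun j => (a (y (j + k)) : ℝ) / 41 * (1 / 41) ^ j := fun k =>
      g.summable.of_nonneg_of_le (fun j => (p k j).1) fun j => (p k j).2
    let s : ℕ → ℝ := fun k => ∑' j, (a (y (j + k)) : ℝ) / 41 * (1 / 41) ^ j
    have s0 : ∀ k, 0 ≤ s k ∧ s k ≤ 3 / 2 := fun k => ⟨tsum_nonneg fun j => (p k j).1,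
      (hasSum_le (fun j => (p k j).2) (sm k).hasSum g).trans (by norm_num)⟩
    have s1 : ∀ k, 41 * s k - s (k + 1) = a (y k) := fun k => by
      simp only [s]
      rw [(sm k).tsum_eq_zero_add, mul_add, ← tsum_mul_left, add_sub_assoc, zero_add,
        tsum_congr (g := fun j => (a (y (j + (k + 1))) : ℝ) / 41 * (1 / 41) ^ j) fun j => by
          rw [add_assoc, add_comm 1 k]; ring]
      ring
    refine ⟨s 0 + (round x).toNat, ⟨_, s, (add_sub_cancel_right _ _).symm, fun k =>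
      ⟨abs_le.2 ⟨by linarith [s0 k], by linarith [s0 k]⟩, _, ha _ (y0 k), s1 k⟩⟩,
      s 0 - y 0 + (-round x).toNat, ⟨_, fun k => s k - y k, (add_sub_cancel_right _ _).symm,
      fun k => ⟨?_, _, hb _ (y0 k), ?_⟩⟩, ?_⟩
    · have := abs_le.1 (y0 k)
      exact abs_le.2 ⟨by linarith [s0 k], by linarith [s0 k]⟩
    · have := e _ (y0 k)
      rw [← y1] at this
      linarith [s1 k]
    · have : (((round x).toNat : ℤ) : ℝ) - (((-round x).toNat : ℤ) : ℝ) = round x := by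
        exact_mod_cast Int.toNat_sub_toNat_neg (round x)
      have e : y 0 = x - round x := rfl
      push_cast at this
      linarith
  let S : Set ℝ := {z | ∃ (m : ℤ) (u : ℕ → ℝ), u 0 = z - m ∧ ∀ k, (-1 / 2 ≤ u k ∧ u k ≤ 3 / 2) ∧
    ∃ d : ℤ, (d % 41 < 21 ∨ 23 < d % 41) ∧ 41 * u k - u (k + 1) = d}
  have S1 : ∀ z ∈ S, ∀ n : ℤ, z + n ∈ S := by
    rintro z ⟨m, u, h0, h⟩ n
    exact ⟨m + n, u, by push_cast; linarith, h⟩
  have sub : S ∩ Set.Ico 0 1 ⊆ ⋃ j ∈ (Finset.Ico (0 : ℤ) 41).erase 22,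
      (fun z : ℝ => 41 * z) ⁻¹' ((fun z : ℝ => z + (-j : ℤ)) ⁻¹' (S ∩ Set.Ico 0 1)) := by
    rintro z ⟨⟨m, u, h0, h⟩, z0, z1⟩
    obtain ⟨d, hd, e⟩ := (h 0).2
    have f1 := Int.floor_le (41 * z)
    have f2 := Int.lt_floor_add_one (41 * z)
    have u1 := (h 1).1
    refine Set.mem_iUnion₂.2 ⟨⌊41 * z⌋, Finset.mem_erase.2 ⟨fun e' => ?_, Finset.mem_Ico.2
      ⟨Int.floor_nonneg.2 (by linarith), Int.floor_lt.2 (by push_cast; linarith)⟩⟩,
      S1 _ ⟨41 * m + d, fun k => u (k + 1), by push_cast; linarith, fun k => h (k + 1)⟩ _,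
      by push_cast; linarith, by push_cast; linarith⟩
    rw [e'] at f1 f2
    have b1 : (20 : ℝ) < (41 * m + d : ℤ) := by push_cast at *; linarith
    have b2 : ((41 * m + d : ℤ) : ℝ) < 24 := by push_cast at *; linarith
    have b1' : (20 : ℤ) < 41 * m + d := by exact_mod_cast b1
    have b2' : 41 * m + d < (24 : ℤ) := by exact_mod_cast b2
    omega
  have fin : volume (S ∩ Set.Ico 0 1) ≠ ⊤ :=
    ((measure_mono Set.inter_subset_right).trans_lt (by simp)).ne
  have z : volume (S ∩ Set.Ico 0 1) = 0 := by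
    have := (measure_mono (μ := volume) sub).trans (measure_biUnion_finset_le _ _)
    simp only [Real.volume_preimage_mul_left (by norm_num : (41 : ℝ) ≠ 0),
      measure_preimage_add_right, Finset.sum_const] at this
    rw [show ((Finset.Ico (0 : ℤ) 41).erase 22).card = 40 by decide +kernel] at this
    lift volume (S ∩ Set.Ico 0 1) to NNReal using fin with v
    rw [nsmul_eq_mul] at this
    have := ENNReal.toReal_mono (by finiteness) this
    rw [ENNReal.toReal_mul, ENNReal.toReal_mul,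
      ENNReal.toReal_ofReal (abs_nonneg _), abs_of_pos (by norm_num)] at this
    simp only [ENNReal.coe_toReal, Nat.cast_ofNat, ENNReal.toReal_ofNat] at this
    have h0 : (v : ℝ) = 0 := by linarith [v.coe_nonneg]
    exact_mod_cast h0
  refine measure_mono_null (t := ⋃ n : ℤ, (fun z : ℝ => z + n) ⁻¹' (S ∩ Set.Ico 0 1)) ?_
    (measure_iUnion_null fun n => by rw [measure_preimage_add_right, z])
  rintro x ⟨_, ⟨n, s, s0, hs⟩, _, ⟨m, t, t0, ht⟩, rfl⟩
  refine Set.mem_iUnion.2 ⟨-⌊_⌋, S1 _ ⟨2 * n - m, fun k => 2 * s k - t k, by push_cast; linarith,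
    fun k => ?_⟩ _, by push_cast; exact ⟨Int.fract_nonneg _, Int.fract_lt_one _⟩⟩
  obtain ⟨a, ha, e1⟩ := (hs k).2
  obtain ⟨b, hb, e2⟩ := (ht k).2
  have := abs_le.1 (hs (k + 1)).1
  have := abs_le.1 (ht (k + 1)).1
  have := A1' a ha
  have := A1' b hb
  exact ⟨⟨by linarith, by linarith⟩, _, A3 a ha b hb, by push_cast; linarith⟩

end Pool.Agent.Results.MP_0f2923_nt.Exists
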